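import Pool.Agent.Helper8.LE.Meas
import Pool.Agent.Helper8.LE.Ball

/-!
# MP_26ac92_gt: sections as large as the shadows on an open set of directions

Let `n ≥ 3`, let `K` be a convex body and let `U` be an open set of directions whose closure meets every hyperplane through
the origin.  If for all `u` in `U` the largest section of `K` orthogonal to `u` has the same volume as the projection of `K`
along `u`, then `K` is a ball.
-/

set_option autoImplicit false

namespace Pool.Agent.Results.MP_26ac92_gt.LocalEquality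

open MeasureTheory

theorem result :
    ∀ n : ℕ, 3 ≤ n → ∀ K : Set (EuclideanSpace ℝ (Fin n)), Convex ℝ K → IsCompact K → (interior K).Nonempty →
      ∀ U : Set (EuclideanSpace ℝ (Fin n)), IsOpen U →
      (∀ e : EuclideanSpace ℝ (Fin n), e ≠ 0 → ∃ u ∈ closure (U ∩ Metric.sphere 0 1), (inner ℝ u e : ℝ) = 0) →
      (∀ u ∈ U, ‖u‖ = 1 →
        (⨆ t : ℝ, Measure.hausdorffMeasure ((n : ℝ) - 1)
          (K ∩ {x : EuclideanSpace ℝ (Fin n) | (inner ℝ x u : ℝ) = t})) =
        Measure.hausdorffMeasure ((n : ℝ) - 1)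
          ((fun x : EuclideanSpace ℝ (Fin n) => x - (inner ℝ x u : ℝ) • u) '' K)) →
      ∃ (c : EuclideanSpace ℝ (Fin n)) (r : ℝ), K = Metric.closedBall c r := by
  intro n hn K hcv hK hint U hU hcov h
  obtain ⟨m, rfl⟩ : ∃ m, n = m + 1 := ⟨n - 1, by omega⟩
  have hcast : (((m + 1 : ℕ) : ℝ) - 1) = (m : ℝ) := by push_cast; ring
  rw [hcast] at h
  exact Pool.Helper8.LE.geo hn hK hcv (hint.mono interior_subset) hU hcov fun u hu hu1 =>
    Pool.Helper8.LE.meas (by omega) hK hcv hint hu1 (h u hu hu1)

end Pool.Agent.Results.MP_26ac92_gt.LocalEquality
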