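import Pool.Agent.Helper51.LPS.Main
import Pool.Agent.Helper21.LPS.M_CONSTL
import Pool.Agent.Helper36.LPS.M_EXT
import Pool.Agent.Helper71.LPS.M_ALG0
import Pool.Agent.Helper66.LPS.M_ALGR
import Pool.Agent.Helper61.LPS.M_BAND
import Pool.Agent.Helper51.LPS.M_FRO
import Pool.Agent.Helper85.LPS.M_ZEROL
import Pool.Agent.Helper55.LPS.M_FLAT
import Pool.Agent.Helper16.LPS.M_SEC
import Pool.Agent.Helper25.LPS.M_TRL

/-!
# MP_26ac92_gt: the support function is a polynomial near one great sphere

Let `n ≥ 3` and let `K` be a convex body in `ℝ^n` whose projection body and cross-section body are balls, of any radii.  If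
there is one direction `e` such that the support function of `K` is given by a polynomial on the unit vectors `u` with
`|⟪u, e⟫| < ε`, then `K` is a ball.

Idea: for the directions `u` near `e` the brightness is an integral over the unit vectors orthogonal to `u` which only involves
this polynomial; it is a trigonometric polynomial along great circles through `e`, so it is constant there for all `u`, and
this forces the polynomial to be `⟪c, u⟫ + r`.  Then the shadow boundary of `K` in the direction `e` is flat, so the largest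
section orthogonal to `e` is as large as the shadow and the two radii are equal.
-/

set_option autoImplicit false

namespace Pool.Agent.Results.MP_26ac92_gt.PolynomialNearShadow

open MeasureTheory

theorem result :
    ∀ n : ℕ, 3 ≤ n →
    ∀ K : Set (EuclideanSpace ℝ (Fin n)),
      Convex ℝ K → IsCompact K → (interior K).Nonempty →
      (∃ a : ENNReal, ∀ u : EuclideanSpace ℝ (Fin n), ‖u‖ = 1 →
        Measure.hausdorffMeasure ((n : ℝ) - 1)
          ((fun x : EuclideanSpace ℝ (Fin n) => x - (inner ℝ x u : ℝ) • u) '' K) = a) →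
      (∃ b : ENNReal, ∀ u : EuclideanSpace ℝ (Fin n), ‖u‖ = 1 →
        (⨆ t : ℝ, Measure.hausdorffMeasure ((n : ℝ) - 1)
          (K ∩ {x : EuclideanSpace ℝ (Fin n) | (inner ℝ x u : ℝ) = t})) = b) →
      (∃ (e : EuclideanSpace ℝ (Fin n)) (ε : ℝ) (p : MvPolynomial (Fin n) ℝ), ‖e‖ = 1 ∧ 0 < ε ∧
        ∀ u : EuclideanSpace ℝ (Fin n), ‖u‖ = 1 → |(inner ℝ u e : ℝ)| < ε →
          IsLUB ((fun x : EuclideanSpace ℝ (Fin n) => (inner ℝ x u : ℝ)) '' K) (MvPolynomial.eval (fun i => u i) p)) →
      ∃ (c : EuclideanSpace ℝ (Fin n)) (r : ℝ), 0 < r ∧ K = Metric.closedBall c r := by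
  intro n hn K hcv hcp hint ⟨a, ha⟩ ⟨b, hb⟩ ⟨e, ε, p, he, hε, hp⟩
  exact Pool.Helper51.LPS.main
    (Helper25.LPS.hTrl (Helper85.LPS.hZeroL Helper21.LPS.hConstL Helper36.LPS.hExt
      (Helper66.LPS.hAlgR Helper71.LPS.hAlg0) Helper61.LPS.hBand Pool.Helper51.LPS.hFrO))
    Helper55.LPS.hFlat Helper16.LPS.hSec n hn K hcv hcp hint e ε p he hε hp a b ha hb

end Pool.Agent.Results.MP_26ac92_gt.PolynomialNearShadow
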