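import Pool.Agent.Helper51.PSB.Main

/-!
# MP_26ac92_gt: convex bodies with polynomial support function and constant brightness are balls

Let `n ≥ 3` and let `K` be a convex body in `ℝ^n` whose support function is, on the unit sphere, the restriction of
a polynomial in `n` variables.  If all projections of `K` onto hyperplanes have the same `(n-1)`-volume (the
projection body of `K` is a ball), then `K` is a ball.
-/

set_option autoImplicit false

namespace Pool.Agent.Results.MP_26ac92_gt.PolynomialSupport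

open MeasureTheory

theorem result :
    ∀ n : ℕ, 3 ≤ n →
    ∀ K : Set (EuclideanSpace ℝ (Fin n)),
      Convex ℝ K → IsCompact K → (interior K).Nonempty →
      (∃ p : MvPolynomial (Fin n) ℝ, ∀ u : EuclideanSpace ℝ (Fin n), ‖u‖ = 1 →
        IsLUB ((fun x : EuclideanSpace ℝ (Fin n) => (inner ℝ x u : ℝ)) '' K) (MvPolynomial.eval (fun i => u i) p)) →
      (∃ a : ENNReal, ∀ u : EuclideanSpace ℝ (Fin n), ‖u‖ = 1 →
        Measure.hausdorffMeasure ((n : ℝ) - 1)
          ((fun x : EuclideanSpace ℝ (Fin n) => x - (inner ℝ x u : ℝ) • u) '' K) = a) →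
      ∃ (c : EuclideanSpace ℝ (Fin n)) (r : ℝ), 0 < r ∧ K = Metric.closedBall c r := by
  intro n hn K hcv hcp hint ⟨p, hp⟩ ⟨a, ha⟩
  obtain ⟨c, r, h⟩ := Pool.Helper51.PSB.qMain n hn K p a hcv hcp hint hp ha
  refine ⟨c, r, ?_, h⟩
  by_contra hr
  rw [not_lt] at hr
  have h1 : K ⊆ {c} := by
    rw [h]
    intro x hx
    rw [Metric.mem_closedBall] at hx
    rw [Set.mem_singleton_iff, ← dist_le_zero]
    exact hx.trans hr
  have : Nonempty (Fin n) := ⟨⟨0, by omega⟩⟩
  have : Nontrivial (EuclideanSpace ℝ (Fin n)) := inferInstance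
  have h2 : interior K ⊆ interior {c} := interior_mono h1
  rw [interior_singleton] at h2
  obtain ⟨x, hx⟩ := hint
  exact h2 hx

end Pool.Agent.Results.MP_26ac92_gt.PolynomialSupport
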