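import Pool.Agent.Helper8.TB.Final
import Pool.Agent.Helper8.TB.M_Der
import Pool.Agent.Helper8.TB.M_Chart
import Pool.Agent.Helper58.TB.M_Bri
import Pool.Agent.Helper22.TB.M_Dat
import Pool.Agent.Helper32.TB.M_Frame
import Pool.Agent.Helper86.TB.M_SymF
import Pool.Agent.Helper16.TB.M_Ang
import Pool.Agent.Helper36.TB.M_Sup
import Pool.Agent.Helper69.TB.M_Sur
import Pool.Agent.Helper1.TB.M_Inj
import Pool.Agent.Helper99.TB.M_NB
import Pool.Agent.Helper80.TB.M_Cpt
import Pool.Agent.Helper92.TB.M_Face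
import Pool.Agent.Helper98.TB.M_Body
import Pool.Agent.Helper6.TB.M_Geo
import Pool.Agent.Helper12.TB.M_Vol

/-!
# MP_26ac92_gt: a non-spherical body with constant brightness whose largest sections equal its shadows outside a thin band

For `n ≥ 3`, a closed set `F` of directions that misses one hyperplane through the origin, and `ε > 0`, there is a convex body `K`,
not a ball, between the balls of radii `1 - ε` and `1 + ε`, such that all projections of `K` to hyperplanes have the same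
`(n - 1)`-volume `a`, no section has larger volume than `a`, and for all `u` in `F` the largest section orthogonal to `u`
has the volume `a`.
-/

set_option autoImplicit false

namespace Pool.Agent.Results.MP_26ac92_gt.ThinBand

open MeasureTheory

theorem result :
    ∀ n : ℕ, 3 ≤ n → ∀ F : Set (EuclideanSpace ℝ (Fin n)), IsClosed F → (∀ u ∈ F, ‖u‖ = 1) →
      (∃ e : EuclideanSpace ℝ (Fin n), e ≠ 0 ∧ ∀ u ∈ F, (inner ℝ u e : ℝ) ≠ 0) →
      ∀ ε : ℝ, 0 < ε →
      ∃ K : Set (EuclideanSpace ℝ (Fin n)), Convex ℝ K ∧ IsCompact K ∧ (interior K).Nonempty ∧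
        Metric.closedBall 0 (1 - ε) ⊆ K ∧ K ⊆ Metric.closedBall 0 (1 + ε) ∧
        (¬ ∃ (c : EuclideanSpace ℝ (Fin n)) (r : ℝ), K = Metric.closedBall c r) ∧
        ∃ a : ENNReal, a ≠ 0 ∧ a ≠ ⊤ ∧
          (∀ u : EuclideanSpace ℝ (Fin n), ‖u‖ = 1 →
            Measure.hausdorffMeasure ((n : ℝ) - 1)
              ((fun x : EuclideanSpace ℝ (Fin n) => x - (inner ℝ x u : ℝ) • u) '' K) = a) ∧
          (∀ u : EuclideanSpace ℝ (Fin n), ‖u‖ = 1 →
            (⨆ t : ℝ, Measure.hausdorffMeasure ((n : ℝ) - 1)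
              (K ∩ {x : EuclideanSpace ℝ (Fin n) | (inner ℝ x u : ℝ) = t})) ≤ a) ∧
          (∀ u ∈ F, (⨆ t : ℝ, Measure.hausdorffMeasure ((n : ℝ) - 1)
              (K ∩ {x : EuclideanSpace ℝ (Fin n) | (inner ℝ x u : ℝ) = t})) = a) :=
  Pool.Helper8.TB.hFinal Pool.Agent.Helper22.TB.hDat
    (Pool.Agent.Helper36.TB.hSup Pool.Agent.Helper16.TB.hAng)
    Pool.Agent.Helper98.TB.hBody
    (Pool.Agent.Helper58.TB.hBri
      (Pool.Agent.Helper12.TB.hVol Pool.Agent.Helper98.TB.hBody Pool.Helper8.TB.hDer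
        (Pool.Agent.Helper1.TB.hInj (Pool.Agent.Helper36.TB.hSup Pool.Agent.Helper16.TB.hAng))
        (Pool.Agent.Helper69.TB.hSur (Pool.Agent.Helper36.TB.hSup Pool.Agent.Helper16.TB.hAng)
          Pool.Agent.Helper92.TB.hFace Pool.Agent.Helper98.TB.hBody))
      Pool.Agent.Helper86.TB.hSymF Pool.Helper8.TB.hChart)
    Pool.Agent.Helper32.TB.hFrame Pool.Agent.Helper6.TB.hGeo
    (Pool.Agent.Helper99.TB.hNB (Pool.Agent.Helper36.TB.hSup Pool.Agent.Helper16.TB.hAng))
    Pool.Agent.Helper80.TB.hCpt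

end Pool.Agent.Results.MP_26ac92_gt.ThinBand
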